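import Pool.Agent.Helper38.WY.Goals1

/-!
# Project WY, packet Y_CYC
-/

set_option autoImplicit false

namespace Pool.Agent.Helper30.WY

open Finset

theorem prod_mul {M : Type} [CommMonoid M] (f : ℕ → M) (a b : ℕ) :
    ∏ l ∈ range (a * b), f l = ∏ j ∈ range b, ∏ i ∈ range a, f (a * j + i) := by
  induction b with
  | zero => simp
  | succ b ih => rw [mul_add, mul_one, prod_range_add, ih, prod_range_succ]

/-- Hilbert 90 for a cyclic group of automorphisms. -/
theorem h90 {H : Type} [Field H] (g : H ≃+* H) (m : ℕ) (hm : 0 < m) (hg : g ^ m = 1)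
    (hd : ∀ i < m, ∀ j < m, g ^ i = g ^ j → i = j) (a : H)
    (ha : ∏ j ∈ range m, (g ^ j) a = 1) : ∃ r : H, r ≠ 0 ∧ a = g r / r := by
  classical
  have ha0 : a ≠ 0 := by
    rintro rfl
    have h0 : ∏ j ∈ range m, (g ^ j) (0 : H) = 0 :=
      prod_eq_zero (mem_range.2 hm) (map_zero _)
    rw [h0] at ha
    exact zero_ne_one ha
  -- the independence of the powers
  have hli : LinearIndependent H (fun i : Fin m ↦ (((g ^ (i : ℕ) : H ≃+* H) : H →* H) : H → H)) := by
    refine (linearIndependent_monoidHom H H).comp (fun i : Fin m ↦ ((g ^ (i : ℕ) : H ≃+* H) : H →* H)) ?_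
    intro i j hij
    refine Fin.ext (hd i i.2 j j.2 ?_)
    ext y
    exact DFunLike.congr_fun hij y
  obtain ⟨θ, hθ⟩ : ∃ θ : H, ∑ i ∈ range m, (∏ j ∈ range i, (g ^ j) a) * (g ^ i) θ ≠ 0 := by
    by_contra hne
    push Not at hne
    have h1 := Fintype.linearIndependent_iff.1 hli (fun i ↦ ∏ j ∈ range (i : ℕ), (g ^ j) a) (by
      funext y
      rw [Finset.sum_apply, Pi.zero_apply, ← hne y, ← Fin.sum_univ_eq_sum_range
        (fun i ↦ (∏ j ∈ range i, (g ^ j) a) * (g ^ i) y)]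
      exact sum_congr rfl fun i _ ↦ rfl) ⟨0, hm⟩
    simp at h1
  set q : H := ∑ i ∈ range m, (∏ j ∈ range i, (g ^ j) a) * (g ^ i) θ with hq
  have hstep : ∀ i, a * g ((∏ j ∈ range i, (g ^ j) a) * (g ^ i) θ) =
      (∏ j ∈ range (i + 1), (g ^ j) a) * (g ^ (i + 1)) θ := by
    intro i
    rw [map_mul, map_prod, prod_range_succ' (fun j ↦ (g ^ j) a), pow_zero]
    have h1 : ∀ (j : ℕ) (y : H), g ((g ^ j) y) = (g ^ (j + 1)) y := fun j y ↦ by
      rw [pow_succ' g j]
      rfl
    have h2 : ∏ x ∈ range i, g ((g ^ x) a) = ∏ x ∈ range i, (g ^ (x + 1)) a :=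
      prod_congr rfl fun j _ ↦ h1 j a
    rw [h1, h2]
    show a * ((∏ x ∈ range i, (g ^ (x + 1)) a) * (g ^ (i + 1)) θ) =
      (∏ x ∈ range i, (g ^ (x + 1)) a) * a * (g ^ (i + 1)) θ
    ring
  have hgq : a * g q = q := by
    have h1 : a * g q = ∑ i ∈ range m, (∏ j ∈ range (i + 1), (g ^ j) a) * (g ^ (i + 1)) θ := by
      rw [hq, map_sum, mul_sum]
      exact sum_congr rfl fun i _ ↦ hstep i
    have h2 := sum_range_succ' (fun i ↦ (∏ j ∈ range i, (g ^ j) a) * (g ^ i) θ) m
    have h3 := sum_range_succ (fun i ↦ (∏ j ∈ range i, (g ^ j) a) * (g ^ i) θ) m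
    rw [h1]
    rw [h3, ha, hg] at h2
    simp only [range_zero, prod_empty, pow_zero] at h2
    exact (add_right_cancel h2).symm
  refine ⟨q⁻¹, inv_ne_zero hθ, ?_⟩
  have hgq0 : g q ≠ 0 := fun h ↦ hθ (by rw [← hgq, h, mul_zero])
  rw [map_inv₀]
  field_simp
  exact hgq

theorem y_cyc : Pool.Agent.Helper38.WY.Y_CYC := by
  classical
  intro R H _ _ _ σ p s hp ho x n hx hσx hn
  have hp0 : 0 < p := hp.pos
  have hps : 0 < p ^ s := pow_pos hp0 s
  have hn0 : n ≠ 0 := by
    rintro rfl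
    apply hx
    rw [← hn]
    exact prod_eq_zero (mem_range.2 hp0) (map_zero _)
  have hpx : ∀ j : ℕ, (σ ^ j) x = x := by
    intro j
    induction j with
    | zero => rfl
    | succ j ih =>
      rw [pow_succ]
      show (σ ^ j) (σ x) = x
      rw [hσx, ih]
  have hadd : ∀ (i j : ℕ) (y : H), (σ ^ i) ((σ ^ j) y) = (σ ^ (i + j)) y := fun i j y ↦ by
    rw [pow_add]
    rfl
  set P : H := ∏ i ∈ range p, (σ ^ i) n with hP
  have hP0 : P ≠ 0 := prod_ne_zero_iff.2 fun i _ ↦ by
    rwa [Ne, EmbeddingLike.map_eq_zero_iff]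
  -- the norms
  have e1 : ∏ j ∈ range (p ^ s), (σ ^ (p * j)) P = ∏ l ∈ range (p * p ^ s), (σ ^ l) n := by
    rw [prod_mul]
    refine prod_congr rfl fun j _ ↦ ?_
    rw [hP, map_prod]
    exact prod_congr rfl fun i _ ↦ hadd _ _ _
  have e2 : x ^ (p ^ s) = ∏ l ∈ range (p * p ^ s), (σ ^ l) n := by
    rw [mul_comm, prod_mul, prod_comm]
    have h1 : ∀ j ∈ range (p ^ s), ∏ i ∈ range p, (σ ^ (p ^ s * i + j)) n = x := by
      intro j _
      rw [← hpx j, ← hn, map_prod]
      refine prod_congr rfl fun i _ ↦ ?_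
      rw [hadd, add_comm]
    rw [prod_congr rfl h1, prod_const, card_range]
  have e3 : ∏ j ∈ range (p ^ s), (σ ^ (p * j)) (P / x) = 1 := by
    have h1 : ∀ j ∈ range (p ^ s), (σ ^ (p * j)) (P / x) = (σ ^ (p * j)) P / x := by
      intro j _
      rw [map_div₀, hpx]
    rw [prod_congr rfl h1, prod_div_distrib, e1, ← e2, prod_const, card_range]
    exact div_self (pow_ne_zero _ hx)
  -- Hilbert 90
  obtain ⟨r, hr0, hr⟩ := h90 (((σ ^ p : H ≃ₐ[R] H) : H ≃+* H)) (p ^ s) hps (by
    ext y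
    have h1 : ∀ j : ℕ, ((((σ ^ p : H ≃ₐ[R] H) : H ≃+* H)) ^ j) y = (σ ^ (p * j)) y := by
      intro j
      induction j with
      | zero => rfl
      | succ j ih =>
        rw [pow_succ', mul_add, mul_one, add_comm, ← hadd, ← ih]
        rfl
    rw [h1, ← pow_succ', ← ho, pow_orderOf_eq_one]
    rfl) (by
    intro i hi j hj hij
    have h1 : ∀ (j : ℕ) (y : H), ((((σ ^ p : H ≃ₐ[R] H) : H ≃+* H)) ^ j) y = (σ ^ (p * j)) y := by
      intro j y
      induction j with
      | zero => rfl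
      | succ j ih =>
        rw [pow_succ', mul_add, mul_one, add_comm, ← hadd, ← ih]
        rfl
    have h2 : σ ^ (p * i) = σ ^ (p * j) := by
      ext y
      rw [← h1, ← h1, hij]
    have h3 : ∀ k, k < p ^ s → p * k < orderOf σ := by
      intro k hk
      rw [ho, pow_succ']
      exact Nat.mul_lt_mul_of_pos_left hk hp0
    have h4 := pow_injOn_Iio_orderOf (Set.mem_Iio.2 (h3 i hi)) (Set.mem_Iio.2 (h3 j hj)) h2
    exact Nat.eq_of_mul_eq_mul_left hp0 h4) (P / x) (by
    rw [← e3]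
    refine prod_congr rfl fun j hj ↦ ?_
    clear hj
    generalize P / x = y
    induction j with
    | zero => rfl
    | succ j ih =>
      rw [pow_succ', mul_add, mul_one, add_comm (p * j), ← hadd, ← ih]
      rfl)
  have hr' : P / x = (σ ^ p) r / r := hr
  have hσr : ∀ j : ℕ, (σ ^ j) r ≠ 0 := fun j ↦ by rwa [Ne, EmbeddingLike.map_eq_zero_iff]
  have hσ1 : σ r ≠ 0 := by rwa [Ne, EmbeddingLike.map_eq_zero_iff]
  refine ⟨n * r / σ r, ?_, ?_⟩
  all_goals
    have hw : ∏ i ∈ range p, (σ ^ i) (n * r / σ r) = x := by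
      have h1 : ∀ k : ℕ, ∏ i ∈ range k, (σ ^ i) (n * r / σ r) = (∏ i ∈ range k, (σ ^ i) n) * r / (σ ^ k) r := by
        intro k
        induction k with
        | zero =>
          rw [prod_range_zero, prod_range_zero, pow_zero]
          show 1 = 1 * r / r
          rw [one_mul, div_self hr0]
        | succ k ih =>
          rw [prod_range_succ, prod_range_succ, ih, map_div₀, map_mul]
          have h2 : (σ ^ k) (σ r) = (σ ^ (k + 1)) r := by
            rw [pow_succ]
            rfl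
          rw [h2]
          have h3 := hσr k
          have h4 := hσr (k + 1)
          field_simp
      rw [h1 p, ← hP]
      have h5 := hσr p
      rw [div_eq_div_iff hx hr0] at hr'
      rw [div_eq_iff h5, hr']
      ring
  · have hw0 : n * r / σ r ≠ 0 := div_ne_zero (mul_ne_zero hn0 hr0) hσ1
    have h1 := congrArg σ hw
    rw [map_prod, hσx] at h1
    have h2 : ∏ i ∈ range p, σ ((σ ^ i) (n * r / σ r)) = ∏ i ∈ range p, (σ ^ (i + 1)) (n * r / σ r) :=
      prod_congr rfl fun i _ ↦ by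
        rw [pow_succ' σ i]
        rfl
    rw [h2] at h1
    have h3 := prod_range_succ (fun i ↦ (σ ^ i) (n * r / σ r)) p
    have h4 := prod_range_succ' (fun i ↦ (σ ^ i) (n * r / σ r)) p
    rw [h3, hw, h1] at h4
    exact mul_left_cancel₀ hx h4
  · exact hw

end Pool.Agent.Helper30.WY
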